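import Pool.Agent.N637.SLM.Stm7

set_option autoImplicit false

namespace Pool.Agent.N490.AN

open Finset Pool.Agent.N637.SLM
open Pool.Agent.W262.RK (dv sgn sg0)

/-! ### linear algebra over `ZMod 2` -/

lemma card_ker {P : Type} [Fintype P] [DecidableEq P] (N : Matrix P P (ZMod 2)) :
    ((univ : Finset (P → ZMod 2)).filter (fun y => N.mulVec y = 0)).card
      = 2 ^ (Fintype.card P - N.rank) := by
  classical
  have h1 : ((univ : Finset (P → ZMod 2)).filter (fun y => N.mulVec y = 0)).card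
      = Nat.card (LinearMap.ker N.mulVecLin) := by
    rw [Nat.card_eq_fintype_card, ← Fintype.card_subtype]
    exact Fintype.card_congr (Equiv.subtypeEquivRight (fun y => by simp))
  rw [h1, Module.natCard_eq_pow_finrank (K := ZMod 2)]
  have h2 := LinearMap.finrank_range_add_finrank_ker (N.mulVecLin)
  rw [Module.finrank_fintype_fun_eq_card] at h2
  have h3 : Module.finrank (ZMod 2) (LinearMap.ker N.mulVecLin) = Fintype.card P - N.rank := by
    unfold Matrix.rank; omega
  rw [h3, Nat.card_zmod]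

lemma rank_add {P : Type} [Fintype P] [DecidableEq P] (A B : Matrix P P (ZMod 2)) :
    (A + B).rank ≤ A.rank + B.rank := by
  unfold Matrix.rank
  have h : LinearMap.range (A + B).mulVecLin ≤
      LinearMap.range A.mulVecLin ⊔ LinearMap.range B.mulVecLin := by
    rintro _ ⟨y, rfl⟩
    rw [Matrix.mulVecLin_add]
    exact Submodule.add_mem_sup ⟨y, rfl⟩ ⟨y, rfl⟩
  exact (Submodule.finrank_mono h).trans (Submodule.finrank_add_le_finrank_add_finrank _ _)

lemma ker_le {P : Type} [Fintype P] [DecidableEq P] (N N' : Matrix P P (ZMod 2))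
    (eps : P → ZMod 2) (h : N' = N.transpose + Matrix.vecMulVec eps eps) :
    ((univ : Finset (P → ZMod 2)).filter (fun y => N'.mulVec y = 0)).card
      ≤ 2 * ((univ : Finset (P → ZMod 2)).filter (fun y => N.mulVec y = 0)).card := by
  rw [card_ker, card_ker]
  have h1 : N.rank ≤ N'.rank + 1 := by
    have e1 : N.transpose = N' + Matrix.vecMulVec eps eps := by
      rw [h, add_assoc]
      have : Matrix.vecMulVec eps eps + Matrix.vecMulVec eps eps = 0 := by
        ext i j
        simp only [Matrix.add_apply, Matrix.zero_apply]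
        exact CharTwo.add_self_eq_zero _
      rw [this, add_zero]
    rw [← Matrix.rank_transpose, e1]
    refine (rank_add _ _).trans ?_
    have := Matrix.rank_vecMulVec_le eps eps
    omega
  have h2 : N.rank ≤ Fintype.card P := Matrix.rank_le_card_width N
  calc 2 ^ (Fintype.card P - N'.rank) ≤ 2 ^ (Fintype.card P - N.rank + 1) := by
        apply Nat.pow_le_pow_right (by norm_num)
        omega
    _ = 2 * 2 ^ (Fintype.card P - N.rank) := by rw [pow_succ]; ring

/-! ### symbols with values in `ZMod 2` -/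

/-- the symbol in `ZMod 2` -/
def ee (p : ℕ) (k : ℤ) : ZMod 2 := if jacobiSym k p = -1 then 1 else 0

lemma ee_mul (p : ℕ) (k l : ℤ) (hk : jacobiSym k p ≠ 0) (hl : jacobiSym l p ≠ 0) :
    ee p (k * l) = ee p k + ee p l := by
  unfold ee
  rw [jacobiSym.mul_left]
  rcases jacobiSym.trichotomy k p with h | h | h
  · exact absurd h hk
  · rcases jacobiSym.trichotomy l p with h' | h' | h'
    · exact absurd h' hl
    · rw [h, h']; decide
    · rw [h, h']; decide
  · rcases jacobiSym.trichotomy l p with h' | h' | h'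
    · exact absurd h' hl
    · rw [h, h']; decide
    · rw [h, h']; decide

lemma ee_one (p : ℕ) : ee p 1 = 0 := by
  unfold ee
  rw [jacobiSym.one_left]; decide

lemma ee_recip (p q : ℕ) (hp : p.Prime) (hq : q.Prime) (hp2 : Odd p) (hq2 : Odd q) (hne : p ≠ q) :
    ee q p = ee p q + ee p (-1) * ee q (-1) := by
  have hpm : p % 4 = 1 ∨ p % 4 = 3 := Nat.odd_mod_four_iff.mp (Nat.odd_iff.mp hp2)
  have hqm : q % 4 = 1 ∨ q % 4 = 3 := Nat.odd_mod_four_iff.mp (Nat.odd_iff.mp hq2)
  have neg1 : ∀ r : ℕ, Odd r → r % 4 = 1 → ee r (-1) = 0 := by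
    intro r hr h
    unfold ee
    rw [jacobiSym.at_neg_one hr, ZMod.χ₄_nat_one_mod_four h]; decide
  have neg3 : ∀ r : ℕ, Odd r → r % 4 = 3 → ee r (-1) = 1 := by
    intro r hr h
    unfold ee
    rw [jacobiSym.at_neg_one hr, ZMod.χ₄_nat_three_mod_four h]; decide
  have hnz : jacobiSym (p : ℤ) q ≠ 0 := by
    apply jacobiSym.ne_zero
    rw [Int.gcd_natCast_natCast]
    exact (Nat.coprime_primes hp hq).mpr hne
  rcases hpm with h1 | h3
  · rw [neg1 p hp2 h1, zero_mul, add_zero]
    unfold ee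
    rw [jacobiSym.quadratic_reciprocity_one_mod_four h1 hq2]
  · rcases hqm with h1' | h3'
    · rw [neg1 q hq2 h1', mul_zero, add_zero]
      unfold ee
      rw [jacobiSym.quadratic_reciprocity_one_mod_four h1' hp2]
    · rw [neg3 p hp2 h3, neg3 q hq2 h3']
      have hr := jacobiSym.quadratic_reciprocity_three_mod_four h3 h3'
      unfold ee
      rw [hr] at hnz ⊢
      rcases jacobiSym.trichotomy (q : ℤ) p with h | h | h
      · exact absurd (by rw [h]; rfl) hnz
      · rw [h]; decide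
      · rw [h]; decide

/-- from Booleans to `ZMod 2` -/
def bz (b : Bool) : ZMod 2 := if b then 1 else 0

lemma bz_inj (a b : Bool) : bz a = bz b ↔ a = b := by
  cases a <;> cases b <;> decide

lemma bz_and (a b : Bool) : bz (a && b) = bz a * bz b := by
  cases a <;> cases b <;> decide

lemma bz_sg0 (p : ℕ) (k : ℤ) : bz (sg0 p k) = ee p k := by
  unfold bz sg0 ee
  by_cases h : jacobiSym k p = -1
  · simp [h]
  · simp [h]

/-! ### divisors and vectors -/

/-- the index set -/
abbrev PP (W : ℕ) : Type := {p : ℕ // p ∈ W.primeFactors}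

/-- one factor -/
def fa {W : ℕ} (y : PP W → ZMod 2) (p : PP W) : ℕ := if y p = 1 then (p : ℕ) else 1

/-- the divisor of a vector -/
def Phi {W : ℕ} (y : PP W → ZMod 2) : ℕ := ∏ p : PP W, fa y p

lemma prime_of {W : ℕ} (p : PP W) : (p : ℕ).Prime := Nat.prime_of_mem_primeFactors p.2

lemma zm2 (a : ZMod 2) : a = 0 ∨ a = 1 := by
  revert a; decide

lemma fa_coprime {W : ℕ} (y : PP W → ZMod 2) (p q : PP W) (h : q ≠ p) :
    Nat.Coprime (fa y q) (p : ℕ) := by
  unfold fa
  split_ifs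
  · exact (Nat.coprime_primes (prime_of q) (prime_of p)).mpr (fun e => h (Subtype.ext e))
  · exact Nat.coprime_one_left _

lemma prod_coprime {W : ℕ} (y : PP W → ZMod 2) (p : PP W) (s : Finset (PP W)) (h : p ∉ s) :
    Nat.Coprime (∏ q ∈ s, fa y q) (p : ℕ) := by
  apply Nat.Coprime.prod_left
  intro q hq
  exact fa_coprime y p q (fun e => h (e ▸ hq))

lemma ee_prod {W : ℕ} (y : PP W → ZMod 2) (p : PP W) (s : Finset (PP W)) (h : p ∉ s) :
    ee p ((∏ q ∈ s, fa y q : ℕ) : ℤ) = ∑ q ∈ s, ee p (q : ℕ) * y q := by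
  classical
  induction s using Finset.induction_on with
  | empty => simp [ee_one]
  | insert a s ha ih =>
    have hp : p ∉ s := fun h' => h (Finset.mem_insert_of_mem h')
    have hne : a ≠ p := fun e => h (e ▸ Finset.mem_insert_self _ _)
    rw [Finset.prod_insert ha, Finset.sum_insert ha, Nat.cast_mul]
    have h1 : jacobiSym ((fa y a : ℕ) : ℤ) p ≠ 0 := by
      apply jacobiSym.ne_zero
      rw [Int.gcd_natCast_natCast]
      exact fa_coprime y p a hne
    have h2 : jacobiSym ((∏ q ∈ s, fa y q : ℕ) : ℤ) p ≠ 0 := by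
      apply jacobiSym.ne_zero
      rw [Int.gcd_natCast_natCast]
      exact prod_coprime y p s hp
    rw [ee_mul _ _ _ h1 h2, ih hp]
    congr 1
    unfold fa
    rcases zm2 (y a) with h0 | h0
    · rw [h0]; simp [ee_one]
    · rw [h0]; simp

lemma Phi_eq {W : ℕ} (y : PP W → ZMod 2) (p : PP W) :
    Phi y = fa y p * ∏ q ∈ univ.erase p, fa y q := by
  unfold Phi
  rw [Finset.mul_prod_erase _ _ (Finset.mem_univ p)]

lemma dvd_Phi {W : ℕ} (y : PP W → ZMod 2) (p : PP W) : (p : ℕ) ∣ Phi y ↔ y p = 1 := by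
  rw [Phi_eq y p]
  constructor
  · intro h
    have h1 : (p : ℕ) ∣ fa y p :=
      (Nat.Coprime.dvd_mul_right
        (Nat.Coprime.symm (prod_coprime y p _ (Finset.notMem_erase p _)))).mp h
    unfold fa at h1
    by_contra hc
    rw [if_neg hc] at h1
    exact (prime_of p).one_lt.ne' (Nat.dvd_one.mp h1)
  · intro h
    unfold fa
    rw [if_pos h]
    exact Dvd.intro _ rfl

lemma sgn_Phi {W : ℕ} (y : PP W → ZMod 2) (p : PP W) :
    bz (sgn p ((Phi y : ℕ) : ℤ)) = ∑ q ∈ univ.erase p, ee p (q : ℕ) * y q := by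
  rw [← ee_prod y p _ (Finset.notMem_erase p _)]
  unfold sgn
  rw [bz_sg0]
  congr 1
  rw [Int.gcd_natCast_natCast]
  have hc := prod_coprime y p _ (Finset.notMem_erase p univ)
  have hg : Nat.gcd (Phi y) (p : ℕ) = fa y p := by
    rw [Phi_eq y p, Nat.Coprime.gcd_mul_right_cancel _ hc]
    unfold fa
    split_ifs
    · exact Nat.gcd_self _
    · exact Nat.gcd_one_left _
  rw [hg, ← Int.natCast_div]
  congr 1
  rw [Phi_eq y p]
  apply Nat.mul_div_cancel_left
  unfold fa
  split_ifs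
  · exact (prime_of p).pos
  · exact one_pos

lemma dv_Phi {W : ℕ} (y : PP W → ZMod 2) (p : PP W) :
    bz (dv p ((Phi y : ℕ) : ℤ)) = y p := by
  unfold dv bz
  rcases zm2 (y p) with h0 | h0
  · have : ¬ ((p : ℕ) : ℤ) ∣ ((Phi y : ℕ) : ℤ) := by
      rw [Int.natCast_dvd_natCast, dvd_Phi, h0]
      decide
    simp [this, h0]
  · have : ((p : ℕ) : ℤ) ∣ ((Phi y : ℕ) : ℤ) := by
      rw [Int.natCast_dvd_natCast, dvd_Phi, h0]
    simp [this, h0]

/-- the matrix -/
def MM (W : ℕ) (m : ℤ) : Matrix (PP W) (PP W) (ZMod 2) :=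
  fun p q => if q = p then bz (sgn p m) else ee p (q : ℕ)

lemma MM_apply {W : ℕ} (m : ℤ) (y : PP W → ZMod 2) (p : PP W) :
    (MM W m).mulVec y p = bz (sgn p m) * y p + ∑ q ∈ univ.erase p, ee p (q : ℕ) * y q := by
  unfold Matrix.mulVec dotProduct
  rw [← Finset.add_sum_erase _ _ (Finset.mem_univ p)]
  congr 1
  · simp [MM]
  · apply Finset.sum_congr rfl
    intro q hq
    simp only [MM]
    rw [if_neg (Finset.ne_of_mem_erase hq)]

lemma cond_iff {W : ℕ} (m : ℤ) (y : PP W → ZMod 2) :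
    (∀ p ∈ W.primeFactors, sgn p ((Phi y : ℕ) : ℤ) = (dv p ((Phi y : ℕ) : ℤ) && sgn p m)) ↔
      (MM W m).mulVec y = 0 := by
  have key : ∀ p : PP W, (sgn p ((Phi y : ℕ) : ℤ) = (dv p ((Phi y : ℕ) : ℤ) && sgn p m)) ↔
      (MM W m).mulVec y p = 0 := by
    intro p
    rw [MM_apply, ← bz_inj, bz_and, dv_Phi, sgn_Phi]
    constructor
    · intro h
      rw [h, mul_comm]
      exact CharTwo.add_self_eq_zero _
    · intro h
      rw [add_comm] at h
      rw [CharTwo.add_eq_zero] at h
      rw [h, mul_comm]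
  constructor
  · intro h
    funext p
    exact (key p).mp (h p p.2)
  · intro h p hp
    exact (key ⟨p, hp⟩).mpr (by rw [h]; rfl)

lemma Phi_dvd {W : ℕ} (hW : Squarefree W) (y : PP W → ZMod 2) : Phi y ∣ W := by
  have h1 : ∏ p : PP W, (p : ℕ) = W := by
    rw [Finset.prod_coe_sort W.primeFactors (fun p => p)]
    exact Nat.prod_primeFactors_of_squarefree hW
  conv_rhs => rw [← h1]
  unfold Phi
  apply Finset.prod_dvd_prod_of_dvd
  intro p _
  unfold fa
  split_ifs
  · exact dvd_rfl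
  · exact one_dvd _

lemma Phi_inj {W : ℕ} (y y' : PP W → ZMod 2) (h : Phi y = Phi y') : y = y' := by
  funext p
  have h1 := dvd_Phi y p
  have h2 := dvd_Phi y' p
  rw [h, h2] at h1
  rcases zm2 (y p) with a | a
  · rcases zm2 (y' p) with b | b
    · rw [a, b]
    · rw [a, b] at h1
      exact absurd (h1.mp rfl) (by decide)
  · rw [a, h1.mpr a]

lemma Phi_surj {W : ℕ} (hW : Squarefree W) (d : ℕ) (hd : d ∣ W) :
    ∃ y : PP W → ZMod 2, Phi y = d := by
  classical
  refine ⟨fun p => if (p : ℕ) ∣ d then 1 else 0, ?_⟩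
  have hds : Squarefree d := hW.squarefree_of_dvd hd
  have hW0 : W ≠ 0 := hW.ne_zero
  have h1 : ∀ p : PP W, fa (fun p : PP W => if (p : ℕ) ∣ d then (1 : ZMod 2) else 0) p
      = if (p : ℕ) ∣ d then (p : ℕ) else 1 := by
    intro p
    unfold fa
    by_cases h : (p : ℕ) ∣ d
    · simp [h]
    · simp [h]
  unfold Phi
  rw [Finset.prod_congr rfl (fun p _ => h1 p)]
  rw [Finset.prod_coe_sort W.primeFactors (fun p => if p ∣ d then p else 1)]
  rw [← Finset.prod_filter]
  have h2 : W.primeFactors.filter (fun p => p ∣ d) = d.primeFactors := by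
    ext p
    simp only [Finset.mem_filter, Nat.mem_primeFactors]
    constructor
    · rintro ⟨⟨a, _, _⟩, b⟩
      exact ⟨a, b, hds.ne_zero⟩
    · rintro ⟨a, b, _⟩
      exact ⟨⟨a, b.trans hd, hW0⟩, b⟩
  rw [h2]
  exact Nat.prod_primeFactors_of_squarefree hds

lemma card_GG {W : ℕ} (hW : Squarefree W) (m : ℤ) :
    (GG W m).card
      = ((univ : Finset (PP W → ZMod 2)).filter (fun y => (MM W m).mulVec y = 0)).card := by
  classical
  symm
  apply Finset.card_bij (fun y _ => Phi y)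
  · intro y hy
    unfold GG
    rw [Finset.mem_filter, Nat.mem_divisors]
    exact ⟨⟨Phi_dvd hW y, hW.ne_zero⟩, (cond_iff m y).mpr (Finset.mem_filter.mp hy).2⟩
  · intro y _ y' _ h
    exact Phi_inj y y' h
  · intro d hd
    unfold GG at hd
    rw [Finset.mem_filter, Nat.mem_divisors] at hd
    obtain ⟨y, rfl⟩ := Phi_surj hW d hd.1.1
    exact ⟨y, Finset.mem_filter.mpr ⟨Finset.mem_univ _, (cond_iff m y).mp hd.2⟩, rfl⟩

theorem t_XT1 : S_XT1 := by
  intro W u hWo hW hcop hu
  rw [card_GG hW, card_GG hW]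
  apply ker_le _ _ (fun p : PP W => ee p (-1))
  have hodd : ∀ p : PP W, Odd (p : ℕ) := by
    intro p
    exact Odd.of_dvd_nat hWo (Nat.dvd_of_mem_primeFactors p.2)
  ext p q
  rw [Matrix.add_apply, Matrix.transpose_apply, Matrix.vecMulVec_apply]
  unfold MM
  by_cases hpq : q = p
  · subst hpq
    rw [if_pos rfl, if_pos rfl]
    obtain ⟨k, hk⟩ : (q : ℕ) ∣ W := Nat.dvd_of_mem_primeFactors q.2
    have hq := prime_of q
    have hkc : Nat.Coprime k (q : ℕ) := by
      rw [hk] at hW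
      exact (Nat.squarefree_mul_iff.mp hW).1.symm
    have huc : Nat.Coprime u (q : ℕ) :=
      (Nat.Coprime.coprime_dvd_left (Nat.dvd_of_mem_primeFactors q.2) hcop).symm
    have e1 : ((u * W : ℕ) : ℤ) = ((q : ℕ) : ℤ) * ((u * k : ℕ) : ℤ) := by
      have e0 : ((W : ℕ) : ℤ) = ((q : ℕ) : ℤ) * ((k : ℕ) : ℤ) := by exact_mod_cast hk
      rw [Nat.cast_mul, Nat.cast_mul, e0]
      ring
    have hq0 : ((q : ℕ) : ℤ) ≠ 0 := by exact_mod_cast hq.ne_zero
    have g1 : Int.gcd ((u * W : ℕ) : ℤ) ((q : ℕ) : ℤ) = (q : ℕ) := by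
      rw [e1, Int.gcd_mul_right_left, Int.natAbs_natCast]
    have s1 : bz (sgn q ((u * W : ℕ) : ℤ)) = ee q ((u * k : ℕ) : ℤ) := by
      unfold sgn
      rw [bz_sg0, g1, e1, Int.mul_ediv_cancel_left _ hq0]
    have s2 : bz (sgn q (-((u * W : ℕ) : ℤ))) = ee q (-1 * ((u * k : ℕ) : ℤ)) := by
      unfold sgn
      rw [bz_sg0, Int.neg_gcd, g1, e1, ← mul_neg, Int.mul_ediv_cancel_left _ hq0, neg_one_mul]
    rw [s1, s2, ee_mul]
    · rcases zm2 (ee q (-1)) with h | h
      · rw [h]; ring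
      · rw [h]; ring
    · apply jacobiSym.ne_zero
      simp
    · apply jacobiSym.ne_zero
      rw [Int.gcd_natCast_natCast]
      exact Nat.Coprime.mul_left huc hkc
  · rw [if_neg hpq, if_neg (fun h => hpq h.symm)]
    have := ee_recip q p (prime_of q) (prime_of p) (hodd q) (hodd p) (fun h => hpq (Subtype.ext h))
    rw [this]
    ring

end Pool.Agent.N490.AN
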